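import Pool.Agent.Q169.NAD2

/-!
# Density of norm attaining operators does not pass to one-complemented subspaces (Q2)

Let `V ≠ 0` be a Banach space with unit sphere `S`.  On `X = V × ℓ₁(S)` consider the norm
`‖(x, y)‖ = sup_{‖f‖ ≤ 1} (|f x| + ∑_{u ∈ S} (1 - |f u|) |y_u|)`.  Its unit ball is the closed
absolutely convex hull of the vectors `(u, θ e_u)`, `u ∈ S`, `|θ| = 1`; `V × 0` is a copy of `V`
and `(x, y) ↦ (x, 0)` has norm one; and the norm attaining operators from `X` to `Z` are dense for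
every `Z` (Lindenstrauss' argument: the circle `{(u, θ e_u) : |θ| = 1}` is compact and is peaked by
a functional which is at most `1 / 2` in modulus at all other vectors `(w, ζ e_w)`).  For `V = c₀`
and a strictly convex renorming `Y` of `c₀` the norm attaining operators from `V` to `Y` are not
dense (Lindenstrauss 1963).
-/

set_option autoImplicit false

namespace Pool.Agent.Results.MP_5ffaeb_an.DensityNotInherited

/-- the operator `T` attains its norm at a vector of norm one -/
def NormAttaining {𝕜 X Y : Type*} [RCLike 𝕜] [NormedAddCommGroup X] [NormedSpace 𝕜 X]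
    [NormedAddCommGroup Y] [NormedSpace 𝕜 Y] (T : X →L[𝕜] Y) : Prop :=
  ∃ x : X, ‖x‖ = 1 ∧ ‖T x‖ = ‖T‖

/-- `X₁` is the range of a bounded linear projection of norm at most one -/
def OneComplemented {𝕜 X : Type*} [RCLike 𝕜] [NormedAddCommGroup X] [NormedSpace 𝕜 X]
    (X₁ : Submodule 𝕜 X) : Prop :=
  ∃ P : X →L[𝕜] X, (∀ x, P (P x) = P x) ∧ (∀ x, x ∈ X₁ ↔ ∃ y, P y = x) ∧ ‖P‖ ≤ 1

open Pool.Agent.Q169.NAD

lemma compl {𝕜 V : Type*} [RCLike 𝕜] [NormedAddCommGroup V] [NormedSpace 𝕜 V] :
    OneComplemented (X1 𝕜 V) := by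
  refine ⟨proj, proj_proj, fun x => ?_, norm_proj_le⟩
  rw [← range_proj]
  exact Iff.rfl

lemma closed {𝕜 V : Type*} [RCLike 𝕜] [NormedAddCommGroup V] [NormedSpace 𝕜 V] :
    IsClosed (X1 𝕜 V : Set (XX 𝕜 V)) := by
  have h : (X1 𝕜 V : Set (XX 𝕜 V)) = {x | proj x = x} := by
    ext x
    constructor
    · intro hx
      rw [SetLike.mem_coe, ← range_proj] at hx
      obtain ⟨y, rfl⟩ := hx
      exact proj_proj y
    · intro hx
      rw [SetLike.mem_coe, ← range_proj]
      exact ⟨x, hx⟩
  rw [h]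
  exact isClosed_eq (ContinuousLinearMap.continuous _) continuous_id

/-- Let `𝕜` be `ℝ` or `ℂ`.

1. Every Banach space `V ≠ 0` over `𝕜` is isometrically isomorphic to a closed one-complemented
   subspace of a Banach space `X` such that for every normed space `Z` the norm attaining operators
   are dense in `L(X, Z)`.
2. There are Banach spaces `X`, `Y` and a closed one-complemented subspace `X₁` of `X` such that the
   norm attaining operators are dense in `L(X, Y)` and not dense in `L(X₁, Y)`. -/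
theorem result.{u, v} (𝕜 : Type u) [RCLike 𝕜] :
    (∀ (V : Type u) [NormedAddCommGroup V] [NormedSpace 𝕜 V] [CompleteSpace V] [Nontrivial V],
      ∃ (X : Type u) (_ : NormedAddCommGroup X) (_ : NormedSpace 𝕜 X) (_ : CompleteSpace X)
        (X₁ : Submodule 𝕜 X),
        IsClosed (X₁ : Set X) ∧ OneComplemented X₁ ∧ Nonempty (V ≃ₗᵢ[𝕜] X₁) ∧
        ∀ (Z : Type v) [NormedAddCommGroup Z] [NormedSpace 𝕜 Z],
          Dense {T : X →L[𝕜] Z | NormAttaining T}) ∧
    ∃ (X : Type u) (_ : NormedAddCommGroup X) (_ : NormedSpace 𝕜 X) (_ : CompleteSpace X)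
      (Y : Type u) (_ : NormedAddCommGroup Y) (_ : NormedSpace 𝕜 Y) (_ : CompleteSpace Y)
      (X₁ : Submodule 𝕜 X),
      IsClosed (X₁ : Set X) ∧ OneComplemented X₁ ∧
      Dense {T : X →L[𝕜] Y | NormAttaining T} ∧ ¬ Dense {T : X₁ →L[𝕜] Y | NormAttaining T} := by
  refine ⟨?_, ?_⟩
  · intro V _ _ _ _
    exact ⟨XX 𝕜 V, inferInstance, inferInstance, inferInstance, X1 𝕜 V, closed, compl, ⟨iso⟩,
      fun Z _ _ => dense_attains⟩
  · have : Nontrivial (CC 𝕜) := ⟨en 0, 0, fun h => by
      have h1 := one_le_en (𝕜 := 𝕜) 0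
      rw [h, norm_zero] at h1
      norm_num at h1⟩
    exact ⟨XX 𝕜 (CC 𝕜), inferInstance, inferInstance, inferInstance, YY 𝕜, inferInstance,
      inferInstance, inferInstance, X1 𝕜 (CC 𝕜), closed, compl, dense_attains, not_dense⟩

end Pool.Agent.Results.MP_5ffaeb_an.DensityNotInherited
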